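import Pool.Agent.Q71.LS.Sub

/-!
# MP_591444_an: a closed unital subalgebra of a locally Stein algebra which is not locally Stein

`A` is the algebra of the continuous functions on `D̄ ∪ [1, 2] ⊆ ℂ` which are holomorphic on the
open unit disc `D`, and `B` is the closed subalgebra of the functions which are constant on `D̄`.
The open subset of `M(A)` of the characters `φ` with `|φ(z)| < 1` is the disc `D`, and the Gel'fand
transforms are dense in `Hol(D)`. The spectrum of `B` is the interval `[1, 2]`, and no nonempty
open subset of it is a reduced complex space, since no analytic subset of an open subset of `ℂⁿ` is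
homeomorphic to an interval.
-/

namespace Pool.Agent.Results.MP_591444_an.NotLocallyStein

open Set Filter Topology Q71.LS

/-- **A closed unital subalgebra of a locally Stein algebra need not be locally Stein.** In fact
no nonempty open subset of the spectrum of `B` carries the structure of a reduced complex space. -/
theorem result : ∃ (A : Type) (_ : NormedCommRing A) (_ : NormedAlgebra ℂ A),
    IsFrechetAlgebra A ∧ IsLocallyStein A ∧ ∃ B : Subalgebra ℂ A, IsClosed (B : Set A) ∧
      ¬ IsLocallyStein B ∧ SpectrumNowhereComplex B := by
  have hn : Nontrivial AA := by
    refine ⟨⟨0, 1, fun h => ?_⟩⟩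
    have h1 := congrArg (fun f : AA => (f : C(KK, ℂ)) ⟨1, one_mem_KK⟩) h
    exact zero_ne_one h1
  refine ⟨AA, inferInstance, inferInstance, isFrechet_of_norm AA, isLocallyStein_AA, sB,
    isClosed_sB, not_isLocallyStein_sB, ?_⟩
  intro Y hY hYn hol
  exact not_complexSpace Y hY hYn hol

end Pool.Agent.Results.MP_591444_an.NotLocallyStein
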